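import Pool.Agent.Lib_helper39.TP.Bridge

/-!
# Tight embeddings of manifolds like the quaternionic and Cayley projective planes

Let `M` be a closed `2d`-manifold like a projective plane, `d = 4` or `d = 8`, and let `f` be a
smooth substantial tight embedding of `M` in Euclidean space of dimension `3d + 2` (14 or 26).
Then the image of `f` is the standard model (Hermitian `3 × 3` matrices `X` over the quaternions
or the octonions with `X² = X` and trace `1`) up to a real projective transformation.
No connectivity assumption on `M` is needed.
-/

open scoped Quaternion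

namespace Pool.Agent.Results.MP_3b4c52_gt.TightPlanes

open Pool.Agent.Lib_helper39.TightPlane

/-- Every smooth substantial tight embedding in `E^{3d+2}` of a closed `2d`-manifold like a
projective plane has the standard model as image up to a projective transformation, for
`(d, K) = (4, ℍ)` and for `(d, K) = (8, 𝕆)`. -/
theorem result :
    (∀ (M : Type) [TopologicalSpace M] [ChartedSpace (EuclideanSpace ℝ (Fin 8)) M]
      (f : M → EuclideanSpace ℝ (Fin 14)),
      IsClosedManifold (EuclideanSpace ℝ (Fin 8)) M → LikeProjPlane 4 M →
      IsSmoothEmb (EuclideanSpace ℝ (Fin 8)) f → IsSubstantial f → IsTight f →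
      IsProjImage ℍ[ℝ] (Set.range f)) ∧
    (∀ (M : Type) [TopologicalSpace M] [ChartedSpace (EuclideanSpace ℝ (Fin 16)) M]
      (f : M → EuclideanSpace ℝ (Fin 26)),
      IsClosedManifold (EuclideanSpace ℝ (Fin 16)) M → LikeProjPlane 8 M →
      IsSmoothEmb (EuclideanSpace ℝ (Fin 16)) f → IsSubstantial f → IsTight f →
      IsProjImage Octonion (Set.range f)) :=
  ⟨fun M _ _ f => final_quaternion M f, fun M _ _ f => final_octonion M f⟩

end Pool.Agent.Results.MP_3b4c52_gt.TightPlanes
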